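import Pool.Agent.W536.LM.Stm

/-!
Project LM (MP_01c1f4_co), part LM-IND: the squared edge lengths of a generic realisation are
algebraically independent.
-/

set_option autoImplicit false

open Polynomial W536.LM

namespace Pool.Agent.W505.LM

theorem chain {ι τ : Type} [Fintype ι] (g : ι → MvPolynomial τ ℚ) (v : τ)
    (f : MvPolynomial ι ℚ) : MvPolynomial.pderiv v (MvPolynomial.aeval g f) =
      ∑ a, MvPolynomial.aeval g (MvPolynomial.pderiv a f) * MvPolynomial.pderiv v (g a) := by
  classical
  induction f using MvPolynomial.induction_on with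
  | C c => simp [MvPolynomial.algebraMap_eq]
  | add f f' h h' =>
    simp only [map_add, h, h', add_mul, Finset.sum_add_distrib]
  | mul_X f i h =>
    have h1 : ∀ a, MvPolynomial.aeval g (MvPolynomial.pderiv a (f * MvPolynomial.X i)) *
        MvPolynomial.pderiv v (g a) =
        g i * (MvPolynomial.aeval g (MvPolynomial.pderiv a f) * MvPolynomial.pderiv v (g a)) +
        (if i = a then MvPolynomial.aeval g f * MvPolynomial.pderiv v (g i) else 0) := by
      intro a
      rw [MvPolynomial.pderiv_mul, MvPolynomial.pderiv_X]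
      by_cases hia : i = a
      · subst hia
        simp only [Pi.single_eq_same, mul_one, map_add, map_mul, MvPolynomial.aeval_X, if_true]
        ring
      · simp only [mul_zero, add_zero, map_mul,
          MvPolynomial.aeval_X, hia, if_false, Pi.single_eq_of_ne hia]
        ring
    rw [map_mul, MvPolynomial.aeval_X, MvPolynomial.pderiv_mul, h, Finset.sum_congr rfl
      (fun a _ => h1 a), Finset.sum_add_distrib, Finset.sum_ite_eq, if_pos (Finset.mem_univ i),
      ← Finset.mul_sum, mul_comm (g i)]

theorem ind_of_jac {ι τ : Type} [Fintype ι] (p : τ → ℝ) (hp : AlgebraicIndependent ℚ p)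
    (g : ι → MvPolynomial τ ℚ)
    (hJ : ∀ l : ι → ℝ, (∀ v, ∑ a, l a * MvPolynomial.aeval p (MvPolynomial.pderiv v (g a)) = 0) →
      l = 0) : AlgebraicIndependent ℚ (fun a => MvPolynomial.aeval p (g a)) := by
  classical
  rw [algebraicIndependent_iff]
  have hcomp : ∀ f : MvPolynomial ι ℚ, MvPolynomial.aeval p (MvPolynomial.aeval g f) =
      MvPolynomial.aeval (fun a => MvPolynomial.aeval p (g a)) f := by
    intro f
    induction f using MvPolynomial.induction_on with
    | C c => simp [MvPolynomial.algebraMap_eq]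
    | add f f' h h' => simp only [map_add, h, h']
    | mul_X f i h => simp only [map_mul, h, MvPolynomial.aeval_X]
  have hconst : ∀ f : MvPolynomial ι ℚ, (∀ m, m ≠ 0 → f.coeff m = 0) →
      MvPolynomial.aeval (fun a => MvPolynomial.aeval p (g a)) f = 0 → f = 0 := by
    intro f hf h0
    have h1 : f = MvPolynomial.C (f.coeff 0) := by
      ext m
      rw [MvPolynomial.coeff_C]
      by_cases hm : 0 = m
      · rw [if_pos hm, ← hm]
      · rw [if_neg hm, hf m (Ne.symm hm)]
    rw [h1, MvPolynomial.aeval_C] at h0
    have h2 : f.coeff 0 = 0 := by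
      have h3 := (algebraMap ℚ ℝ).injective (h0.trans (map_zero (algebraMap ℚ ℝ)).symm)
      exact h3
    rw [h1, h2, MvPolynomial.C_0]
  have key : ∀ (n : ℕ) (f : MvPolynomial ι ℚ), (∀ m, f.coeff m ≠ 0 → m.degree ≤ n) →
      MvPolynomial.aeval (fun a => MvPolynomial.aeval p (g a)) f = 0 → f = 0 := by
    intro n
    induction n with
    | zero =>
      intro f hf h0
      refine hconst f (fun m hm => ?_) h0
      by_contra hne
      exact hm ((Finsupp.degree_eq_zero_iff m).1 (Nat.le_zero.1 (hf m hne)))
    | succ n ih =>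
      intro f hf h0
      have h1 : MvPolynomial.aeval g f = 0 := by
        rw [algebraicIndependent_iff] at hp
        exact hp _ ((hcomp f).trans h0)
      have h2 : ∀ a, MvPolynomial.aeval (fun a => MvPolynomial.aeval p (g a))
          (MvPolynomial.pderiv a f) = 0 := by
        have h3 := hJ (fun a => MvPolynomial.aeval (fun a => MvPolynomial.aeval p (g a))
          (MvPolynomial.pderiv a f)) (fun v => by
            have h4 := congrArg (MvPolynomial.aeval p) (chain g v f)
            rw [h1, map_zero, map_zero, map_sum] at h4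
            rw [h4]
            refine Finset.sum_congr rfl fun a _ => ?_
            rw [map_mul, hcomp])
        exact fun a => congrFun h3 a
      have h5 : ∀ a, MvPolynomial.pderiv a f = 0 := by
        intro a
        refine ih _ (fun m hm => ?_) (h2 a)
        rw [MvPolynomial.coeff_pderiv] at hm
        have h6 := hf _ (left_ne_zero_of_mul hm)
        rw [map_add, Finsupp.degree_single] at h6
        omega
      refine hconst f (fun m hm => ?_) h0
      obtain ⟨a, ha⟩ := Finsupp.ne_iff.1 hm
      rw [Finsupp.coe_zero, Pi.zero_apply] at ha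
      have h7 : m = (m - Finsupp.single a 1) + Finsupp.single a 1 := by
        rw [tsub_add_cancel_of_le]
        rw [Finsupp.single_le_iff]
        omega
      have h8 := MvPolynomial.coeff_pderiv (i := a) f (m - Finsupp.single a 1)
      rw [h5, MvPolynomial.coeff_zero, ← h7] at h8
      rcases mul_eq_zero.1 h8.symm with h9 | h9
      · exact h9
      · exfalso
        have : (0 : ℚ) < (((m - Finsupp.single a 1 : ι →₀ ℕ) a : ℕ) : ℚ) + 1 := by positivity
        exact absurd h9 this.ne'
  intro f h0
  exact key f.totalDegree f (fun m hm => by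
    have := MvPolynomial.le_totalDegree (MvPolynomial.mem_support_iff.2 hm)
    exact this) h0

/-- the squared length of an edge, as a polynomial -/
noncomputable def lX (a : Fin 13) : MvPolynomial (Fin 8 × Fin 2) ℚ :=
  ∑ k, (MvPolynomial.X ((ed a).1, k) - MvPolynomial.X ((ed a).2, k)) ^ 2

theorem aeval_pderiv_lX (p : Fin 8 → Fin 2 → ℝ) (a : Fin 13) (v : Fin 8) (k : Fin 2) :
    MvPolynomial.aeval (fun x : Fin 8 × Fin 2 => p x.1 x.2)
      (MvPolynomial.pderiv (v, k) (lX a)) =
    2 * ((if (ed a).1 = v then p (ed a).1 k - p (ed a).2 k else 0) -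
     (if (ed a).2 = v then p (ed a).1 k - p (ed a).2 k else 0)) := by
  have hX : ∀ (s : Fin 8) (k' : Fin 2), MvPolynomial.pderiv (v, k)
      (MvPolynomial.X (s, k') : MvPolynomial (Fin 8 × Fin 2) ℚ) =
      if s = v ∧ k' = k then 1 else 0 := by
    intro s k'
    by_cases h : s = v ∧ k' = k
    · rw [if_pos h, h.1, h.2, MvPolynomial.pderiv_X_self]
    · rw [if_neg h, MvPolynomial.pderiv_X_of_ne]
      intro h2
      exact h ⟨(Prod.ext_iff.1 h2).1, (Prod.ext_iff.1 h2).2⟩
  have h1 : ∀ k' : Fin 2, MvPolynomial.aeval (fun x : Fin 8 × Fin 2 => p x.1 x.2)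
      (MvPolynomial.pderiv (v, k) ((MvPolynomial.X ((ed a).1, k') -
        MvPolynomial.X ((ed a).2, k')) ^ 2 : MvPolynomial (Fin 8 × Fin 2) ℚ)) =
      if k' = k then 2 * ((if (ed a).1 = v then p (ed a).1 k - p (ed a).2 k else 0) -
     (if (ed a).2 = v then p (ed a).1 k - p (ed a).2 k else 0)) else 0 := by
    intro k'
    rw [MvPolynomial.pderiv_pow, map_sub, hX, hX]
    by_cases hk : k' = k
    · subst hk
      by_cases h2 : (ed a).1 = v <;> by_cases h3 : (ed a).2 = v <;> simp [h2, h3] <;> ring
    · simp [hk]
  unfold lX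
  rw [map_sum, map_sum, Finset.sum_congr rfl (fun k' _ => h1 k'), Finset.sum_ite_eq',
    if_pos (Finset.mem_univ k)]

theorem t_IND (hR : S_RK) : S_IND := by
  intro p hp
  have h := ind_of_jac (fun x : Fin 8 × Fin 2 => p x.1 x.2) hp lX ?_
  · have e : (fun a : Fin 13 => dd p (ed a).1 (ed a).2) =
        fun a => MvPolynomial.aeval (fun x : Fin 8 × Fin 2 => p x.1 x.2) (lX a) := by
      funext a
      simp [dd, lX]
    rw [e]
    exact h
  · intro l hl
    apply hR p hp l
    intro v k
    have h1 := hl (v, k)
    simp only [aeval_pderiv_lX] at h1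
    have h2 : (2 : ℝ) * ∑ a, l a *
        ((if (ed a).1 = v then p (ed a).1 k - p (ed a).2 k else 0) -
         (if (ed a).2 = v then p (ed a).1 k - p (ed a).2 k else 0)) = 0 := by
      rw [Finset.mul_sum]
      refine Eq.trans (Finset.sum_congr rfl fun a _ => ?_) h1
      ring
    rcases mul_eq_zero.1 h2 with h3 | h3
    · norm_num at h3
    · exact h3

end Pool.Agent.W505.LM
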